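import Mathlib

set_option autoImplicit false

namespace Pool.Agent.Results.MP_ffd2b5_nt.Counter

/-- complete quotients of the regular continued fraction of `x` -/
noncomputable def cq (x : ℝ) : ℕ → ℝ
  | 0 => x
  | n + 1 => (Int.fract (cq x n))⁻¹

/-- the terms `a_n` of the regular continued fraction of `x` -/
noncomputable def a (x : ℝ) (n : ℕ) : ℤ := ⌊cq x n⌋

/-- the minimal period length `T_p` of the continued fraction of `√p` -/
noncomputable def T (p : ℕ) : ℕ :=
  sInf {t : ℕ | 1 ≤ t ∧ ∀ n, 1 ≤ n → a (Real.sqrt p) (n + t) = a (Real.sqrt p) n}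

/-- the `m`-th prime, `pr 1 = 2` -/
noncomputable def pr (m : ℕ) : ℕ := Nat.nth Nat.Prime (m - 1)

lemma step (x y : ℝ) (k : ℤ) (h1 : (k : ℝ) ≤ x) (h2 : x < k + 1) (h : (x - k) * y = 1) :
    ⌊x⌋ = k ∧ (Int.fract x)⁻¹ = y := by
  have hf : ⌊x⌋ = k := Int.floor_eq_iff.2 ⟨h1, h2⟩
  refine ⟨hf, ?_⟩
  rw [Int.fract, hf]
  exact inv_eq_of_mul_eq_one_right h

lemma T13 : T 13 = 5 := by
  set s : ℝ := Real.sqrt (13 : ℕ) with hs
  have hss : s * s = 13 := by
    rw [hs, Real.mul_self_sqrt (by positivity)]; norm_num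
  have h0 : 0 ≤ s := Real.sqrt_nonneg _
  have hl : 3.6 < s := by nlinarith
  have hu : s < 3.61 := by nlinarith
  have s0 := step s ((s + 3) / 4) 3 (by push_cast; linarith) (by push_cast; linarith)
    (by push_cast; nlinarith)
  have s1 := step ((s + 3) / 4) ((s + 1) / 3) 1 (by push_cast; linarith) (by push_cast; linarith)
    (by push_cast; nlinarith)
  have s2 := step ((s + 1) / 3) ((s + 2) / 3) 1 (by push_cast; linarith) (by push_cast; linarith)
    (by push_cast; nlinarith)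
  have s3 := step ((s + 2) / 3) ((s + 1) / 4) 1 (by push_cast; linarith) (by push_cast; linarith)
    (by push_cast; nlinarith)
  have s4 := step ((s + 1) / 4) (s + 3) 1 (by push_cast; linarith) (by push_cast; linarith)
    (by push_cast; nlinarith)
  have s5 := step (s + 3) ((s + 3) / 4) 6 (by push_cast; linarith) (by push_cast; linarith)
    (by push_cast; nlinarith)
  have c1 : cq s 1 = (s + 3) / 4 := s0.2
  have c2 : cq s 2 = (s + 1) / 3 := by rw [← s1.2, ← c1]; rfl
  have c3 : cq s 3 = (s + 2) / 3 := by rw [← s2.2, ← c2]; rfl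
  have c4 : cq s 4 = (s + 1) / 4 := by rw [← s3.2, ← c3]; rfl
  have c5 : cq s 5 = s + 3 := by rw [← s4.2, ← c4]; rfl
  have c6 : cq s 6 = (s + 3) / 4 := by rw [← s5.2, ← c5]; rfl
  have per : ∀ k, cq s (k + 1 + 5) = cq s (k + 1) := by
    intro k
    induction k with
    | zero => exact c6.trans c1.symm
    | succ k ih =>
      show (Int.fract (cq s (k + 1 + 5)))⁻¹ = (Int.fract (cq s (k + 1)))⁻¹
      rw [ih]
  have a1 : a s 1 = 1 := by rw [a, c1]; exact s1.1
  have a2 : a s 2 = 1 := by rw [a, c2]; exact s2.1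
  have a3 : a s 3 = 1 := by rw [a, c3]; exact s3.1
  have a4 : a s 4 = 1 := by rw [a, c4]; exact s4.1
  have a5 : a s 5 = 6 := by rw [a, c5]; exact s5.1
  have mem : 5 ∈ {t : ℕ | 1 ≤ t ∧ ∀ n, 1 ≤ n → a s (n + t) = a s n} := by
    refine ⟨by norm_num, fun n hn => ?_⟩
    obtain ⟨k, rfl⟩ : ∃ k, n = k + 1 := ⟨n - 1, by omega⟩
    rw [a, a, per]
  apply le_antisymm (Nat.sInf_le mem)
  obtain ⟨h1, h2⟩ := Nat.sInf_mem ⟨5, mem⟩
  by_contra hlt
  have hlt' : sInf {t : ℕ | 1 ≤ t ∧ ∀ n, 1 ≤ n → a s (n + t) = a s n} < 5 := not_le.1 hlt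
  generalize sInf {t : ℕ | 1 ≤ t ∧ ∀ n, 1 ≤ n → a s (n + t) = a s n} = t at h1 h2 hlt'
  interval_cases t
  · have := h2 4 (by norm_num); norm_num [a4, a5] at this
  · have := h2 3 (by norm_num); norm_num [a3, a5] at this
  · have := h2 2 (by norm_num); norm_num [a2, a5] at this
  · have := h2 1 (by norm_num); norm_num [a1, a5] at this

lemma pr6 : pr 6 = 13 := by
  have h : Nat.count Nat.Prime 13 = 5 := by decide
  have := Nat.nth_count (p := Nat.Prime) (n := 13) (by norm_num)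
  rw [h] at this
  exact this

lemma bound : Real.sqrt 6 * Real.log 6 < 5 := by
  have h1 : Real.sqrt 6 < 2.45 := by
    rw [Real.sqrt_lt' (by norm_num)]; norm_num
  have h2 : Real.log 6 < 2 := by
    have e : (6 : ℝ) = 2 ^ 3 * (3 / 4) := by norm_num
    rw [e, Real.log_mul (by norm_num) (by norm_num), Real.log_pow]
    have := Real.log_le_sub_one_of_pos (show (0 : ℝ) < 3 / 4 by norm_num)
    have := Real.log_two_lt_d9
    push_cast
    linarith
  have h3 : 0 ≤ Real.sqrt 6 := Real.sqrt_nonneg _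
  have h4 : 0 ≤ Real.log 6 := Real.log_nonneg (by norm_num)
  nlinarith

theorem result :
    (pr 6 = 13 ∧ T 13 = 5 ∧ Real.sqrt 6 * Real.log 6 < 5) ∧
    ¬ ∀ m : ℕ, 5 ≤ m → (T (pr m) : ℝ) < Real.sqrt m * Real.log m := by
  refine ⟨⟨pr6, T13, bound⟩, fun h => ?_⟩
  have h6 := h 6 (by norm_num)
  rw [pr6, T13] at h6
  have := bound
  push_cast at h6
  linarith

end Pool.Agent.Results.MP_ffd2b5_nt.Counter
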